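import Pool.Agent.R52.LOzFinal

/-!
# The modular derivation of a polynomial Poisson algebra in positive characteristic is log-ozone
-/

set_option autoImplicit false

namespace Pool.Agent.Results.MP_c5669f_al.ModularLogOzone

open MvPolynomial

/-- `f ≠ 0` is Poisson normal: `{a, f} ∈ f P` for all `a`. -/
def PoissonNormal {k : Type*} [Field k] {n : ℕ}
    (Br : MvPolynomial (Fin n) k →ₗ[k] MvPolynomial (Fin n) k →ₗ[k] MvPolynomial (Fin n) k)
    (f : MvPolynomial (Fin n) k) : Prop :=
  f ≠ 0 ∧ ∀ a, f ∣ Br a f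

/-- `δ` is the log-ozone derivation `δ_f` of the Poisson normal element `f`:
`{a, f} = δ(a) f` for all `a`. -/
def IsLogOzone {k : Type*} [Field k] {n : ℕ}
    (Br : MvPolynomial (Fin n) k →ₗ[k] MvPolynomial (Fin n) k →ₗ[k] MvPolynomial (Fin n) k)
    (δ : Derivation k (MvPolynomial (Fin n) k) (MvPolynomial (Fin n) k))
    (f : MvPolynomial (Fin n) k) : Prop :=
  PoissonNormal Br f ∧ ∀ a, Br a f = δ a * f

/-- The log-ozone group: the additive subgroup generated by all `δ_f`. -/
noncomputable def loz {k : Type*} [Field k] {n : ℕ}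
    (Br : MvPolynomial (Fin n) k →ₗ[k] MvPolynomial (Fin n) k →ₗ[k] MvPolynomial (Fin n) k) :
    AddSubgroup (Derivation k (MvPolynomial (Fin n) k) (MvPolynomial (Fin n) k)) :=
  AddSubgroup.closure {δ | ∃ f, IsLogOzone Br δ f}

/-- For every polynomial Poisson algebra `P = k[x_1, ..., x_n]` over a field of characteristic
`p > 0`, the modular derivation `φ(a) = ∑ j, ∂_j {x_j, a}` is a derivation of `P` which equals
`δ_Ω` for a single Poisson normal element `Ω`; in particular it lies in the log-ozone group. -/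
theorem result (p : ℕ) [Fact p.Prime] (k : Type*) [Field k] [CharP k p] (n : ℕ)
    (Br : MvPolynomial (Fin n) k →ₗ[k] MvPolynomial (Fin n) k →ₗ[k] MvPolynomial (Fin n) k)
    (alt : ∀ a, Br a a = 0)
    (jacobi : ∀ a b c, Br a (Br b c) + Br b (Br c a) + Br c (Br a b) = 0)
    (leibniz : ∀ a b c, Br a (b * c) = Br a b * c + b * Br a c) :
    ∃ φ : Derivation k (MvPolynomial (Fin n) k) (MvPolynomial (Fin n) k),
      (∀ a, φ a = ∑ j : Fin n, pderiv j (Br (X j) a)) ∧
      φ ∈ loz Br ∧ ∃ Ω, IsLogOzone Br φ Ω := by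
  have anti : ∀ a b, Br a b = - Br b a := by
    intro a b
    have h1 := alt (a + b)
    simp only [map_add, LinearMap.add_apply, alt, zero_add, add_zero] at h1
    exact eq_neg_of_add_eq_zero_right h1
  have h : R52.LogOzone.IsPoisson Br :=
    { alt := alt
      jac := by
        intro a b c
        have h1 := jacobi a b c
        rw [anti c a, anti c (Br a b), map_neg] at h1
        linear_combination h1
      leib := by
        intro a b c
        rw [leibniz]; ring }
  obtain ⟨φ, Ω, h0, h1, h2⟩ := R52.LogOzone.modular_eq_delta p h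
  have h3 : IsLogOzone Br φ Ω := ⟨⟨h0, fun a => ⟨φ a, by rw [h2 a]; ring⟩⟩, h2⟩
  exact ⟨φ, h1, AddSubgroup.subset_closure ⟨Ω, h3⟩, Ω, h3⟩

end Pool.Agent.Results.MP_c5669f_al.ModularLogOzone
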